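import Pool.Agent.Helper56_MG.Stmts2
import Pool.Agent.Helper56_MG.Base1

/-!
# CPLF: the complement of a free name is free
-/

open Set

namespace Pool.Agent.MG.H68

open Pool.Agent.MG

theorem pre_cpl (x : R) (n : ℕ) : pre (cpl x) n = (pre x n).map (fun b => !b) := by
  simp [pre, cpl]

theorem cpl_cpl (x : R) : cpl (cpl x) = x := by
  funext n
  simp [cpl]

/-- Complement of a node. -/
def cn (t : Node) : Node := t.map (fun b => !b)

theorem cn_cn (t : Node) : cn (cn t) = t := by
  simp [cn, Function.comp_def]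

theorem cn_append (s t : Node) : cn (s ++ t) = cn s ++ cn t := by simp [cn]

theorem cn_prefix {s t : Node} (h : s <+: t) : cn s <+: cn t := by
  obtain ⟨l, rfl⟩ := h
  rw [cn_append]
  exact List.prefix_append _ _

/-- Complement of a tree. -/
def ct (T : Set Node) : Set Node := {t | cn t ∈ T}

theorem measurable_ct : Measurable ct := by
  rw [measurable_node_iff]
  intro s
  exact measurableSet_mem_node (cn s)

theorem mem_bS_ct (T : Set Node) (x : R) : x ∈ bS (ct T) ↔ cpl x ∈ bS T := by
  constructor
  · intro h n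
    rw [pre_cpl]
    exact h n
  · intro h n
    have h1 := h n
    rw [pre_cpl] at h1
    exact h1

theorem good_ct {T : Set Node} (hT : Good false T) : Good false (ct T) := by
  refine ⟨?_, ?_, ?_⟩
  · exact hT.nil
  · intro s a h
    have h1 : cn (s ++ [a]) ∈ T := h
    rw [cn_append] at h1
    exact hT.down _ _ h1
  · intro s hs
    obtain ⟨t, ht, hst, hsp⟩ := hT.spl (cn s) hs
    refine ⟨cn t, ?_, ?_, ?_⟩
    · change cn (cn t) ∈ T
      rw [cn_cn]
      exact ht
    · have := cn_prefix hst
      rw [cn_cn] at this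
      exact this
    · constructor
      · change cn (cn t ++ [false]) ∈ T
        rw [cn_append, cn_cn]
        exact hsp.2
      · change cn (cn t ++ [true]) ∈ T
        rw [cn_append, cn_cn]
        exact hsp.1

/-- The relation of complementation. -/
def HC : Set (Node × Node) := {z | z.1 = cn z.2}

theorem mem_rb_HC (s x : R) : (s, x) ∈ rb HC ↔ s = cpl x := by
  constructor
  · intro h
    apply eq_of_pre
    intro n
    rw [pre_cpl]
    exact h n
  · rintro rfl n
    exact pre_cpl x n

theorem fr_bt (A : PJ → Set R) : Fr (bt : JJ) A := by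
  rw [Fr_iff]
  intro ε hε
  exact absurd hε (not_lt.2 (bt_le ε))

theorem cplf (hPull : PullStmt JJ) : CplfStmt := by
  refine ⟨⟨ct, measurable_ct, mem_bS_ct, fun T => good_ct⟩, ?_⟩
  intro ρ A hA
  have h := hPull bt ρ (bt_le ρ) (fun _ => HC) measurable_const (fun _ _ _ => rfl)
    (fun _ s s' x h1 h2 => by
      rw [mem_rb_HC] at h1 h2
      rw [h1, h2]) (fr_bt _) A hA
  have h2 : (fun y => {x | cpl x ∈ A y}) = (fun y => {x | ∃ s ∈ A y, (s, x) ∈ rb HC}) := by
    funext y
    ext x
    constructor
    · intro hx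
      exact ⟨cpl x, hx, (mem_rb_HC _ _).2 rfl⟩
    · rintro ⟨s, hs, hx⟩
      rw [mem_rb_HC] at hx
      rw [Set.mem_ofPred_eq, ← hx]
      exact hs
  rw [h2]
  exact h

end Pool.Agent.MG.H68
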