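import Pool.Agent.Helper56_MG.Stmts2
import Pool.Agent.Helper56_MG.Base1

/-!
# MLOC: thinning of Miller trees
-/

open Set

namespace Pool.Agent.MG.H68

open Pool.Agent.MG

theorem on_getElem {t : Node} {x : R} (h : On t x) (i : ℕ) (hi : i < t.length) : x i = t[i] := by
  unfold On at h
  have h1 : i < (pre x t.length).length := by simpa using hi
  have h2 := getElem_pre x t.length i h1
  rw [← h2]
  congr 1

theorem on_z1 {s : Node} {k : ℕ} {x : R} (h : On (z1 s k) x) :
    x (s.length + k) = true ∧ ∀ i, s.length ≤ i → i < s.length + k → x i = false := by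
  have hl : (z1 s k).length = s.length + k + 1 := by simp [z1]; ring
  constructor
  · rw [on_getElem h (s.length + k) (by omega)]
    simp [z1]
  · intro i h1 h2
    rw [on_getElem h i (by omega)]
    have h3 : i < (s ++ List.replicate k false).length := by simpa using h2
    simp only [z1]
    rw [List.getElem_append_left h3, List.getElem_append_right h1]
    simp

theorem nxt_eq {x : R} {n e : ℕ} (he : x e = true) (hn : n ≤ e)
    (h : ∀ i, n ≤ i → i < e → x i = false) : nxt x n = e := by
  have h1 : e ∈ {k | n ≤ k ∧ x k = true} := ⟨hn, he⟩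
  apply le_antisymm (Nat.sInf_le h1)
  apply le_csInf ⟨e, h1⟩
  rintro k ⟨hk, hxk⟩
  by_contra hlt
  push Not at hlt
  have := h k hk hlt
  rw [hxk] at this
  exact absurd this (by simp)

theorem le_nxt {x : R} (hx : Inf1 x) (n : ℕ) : n ≤ nxt x n := by
  obtain ⟨k, hk⟩ := hx n
  exact (Nat.sInf_mem (s := {k | n ≤ k ∧ x k = true}) ⟨k, hk⟩).1

theorem ini_succ (g : ℕ → ℕ) (n : ℕ) : ini g (n + 1) = ini g n ++ [g n] := by
  simp [ini, List.range_succ]

@[simp] theorem ini_length (g : ℕ → ℕ) (n : ℕ) : (ini g n).length = n := by simp [ini]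

theorem ini_take (g : ℕ → ℕ) {m n : ℕ} (h : m ≤ n) : (ini g n).take m = ini g m := by
  simp [ini, ← List.map_take, List.take_range, min_eq_left h]

theorem ini_getElem (g : ℕ → ℕ) {m n : ℕ} (h : m < (ini g n).length) : (ini g n)[m] = g m := by
  simp [ini]

/-- Lists of length at most `e` and entries at most `e`. -/
noncomputable def LS (e : ℕ) : Finset (List ℕ) :=
  ((List.finite_length_le (Fin (e + 1)) e).image (List.map (fun i : Fin (e + 1) => (i : ℕ)))).toFinset

theorem mem_LS {e : ℕ} {σ : List ℕ} (h : σ.length ≤ e) (h2 : ∀ k ∈ σ, k ≤ e) : σ ∈ LS e := by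
  unfold LS
  rw [Set.Finite.mem_toFinset]
  refine ⟨σ.pmap (fun k hk => (⟨k, Nat.lt_succ_of_le hk⟩ : Fin (e + 1))) h2, ?_, ?_⟩
  · simpa using h
  · rw [List.map_pmap]
    simp

theorem measurableSet_eval_lt {Ω : Type} [MeasurableSpace Ω] {A B : Ω → ℕ} (hA : MeasC A)
    (hB : MeasC B) : MeasurableSet {w : Ω × (ℕ → ℕ) | w.2 (A w.1) < B w.1} := by
  have h1 : {w : Ω × (ℕ → ℕ) | w.2 (A w.1) < B w.1} =
      ⋃ a : ℕ, ({w : Ω × (ℕ → ℕ) | A w.1 = a} ∩ {w | w.2 a < B w.1}) := by
    ext w
    simp only [Set.mem_ofPred_eq, Set.mem_iUnion, Set.mem_inter_iff]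
    constructor
    · intro h
      exact ⟨A w.1, rfl, h⟩
    · rintro ⟨a, rfl, h⟩
      exact h
  rw [h1]
  refine MeasurableSet.iUnion fun a => MeasurableSet.inter ?_ ?_
  · exact measurable_fst (hA.1 a)
  · exact measurableSet_lt ((measurable_pi_apply a).comp measurable_snd)
      (hB.measurable.comp measurable_fst)

theorem mloc (hTsy : TsyStmt) (hFtm : FtMStmt) : MlocStmt := by
  classical
  obtain ⟨s, m, hs, hm, hT⟩ := hTsy
  let D : Set Node → (ℕ → ℕ) → Set (List ℕ) := fun T G =>
    {σ | ∀ j (hj : j < σ.length), G ((s (σ.take j) T).length) <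
      (s (σ.take j) T).length + m (σ.take j) σ[j] T}
  let φ : Set Node → ℕ → ℕ := fun T e =>
    ∑ p ∈ LS e ×ˢ Finset.range (e + 1), (s (p.1 ++ [p.2]) T).length
  refine ⟨φ, fun T => (s [] T).length, fun T G => ftM (fun σ => s σ T) (D T G), ?_, ?_, ?_, ?_⟩
  · refine measurable_pi_iff.2 fun e => ?_
    refine Finset.measurable_sum _ fun p _ => ?_
    exact ((hs (p.1 ++ [p.2])).comp List.length).measurable
  · exact ((hs []).comp List.length).measurable
  · refine hFtm.2 (Set Node × (ℕ → ℕ)) (fun σ w => s σ w.1) (fun w => D w.1 w.2) ?_ ?_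
    · intro σ
      exact ⟨fun x => measurable_fst ((hs σ).1 x), (hs σ).2.mono (by
        rintro _ ⟨w, rfl⟩
        exact ⟨w.1, rfl⟩)⟩
    · intro σ
      have h1 : {w : Set Node × (ℕ → ℕ) | σ ∈ D w.1 w.2} =
          ⋂ j : ℕ, {w : Set Node × (ℕ → ℕ) | ∀ (hj : j < σ.length),
            w.2 ((s (σ.take j) w.1).length) <
              (s (σ.take j) w.1).length + m (σ.take j) σ[j] w.1} := by
        ext w
        simp [D]
      rw [h1]
      refine MeasurableSet.iInter fun j => ?_
      by_cases hj : j < σ.length
      · simp only [hj, forall_true_left]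
        refine measurableSet_eval_lt (A := fun T => (s (σ.take j) T).length)
          (B := fun T => (s (σ.take j) T).length + m (σ.take j) σ[j] T)
          ((hs (σ.take j)).comp List.length) ?_
        exact ((hs (σ.take j)).prodMk (hm (σ.take j) σ[j])).comp
          (fun p : Node × ℕ => p.1.length + p.2)
      · have h2 : {w : Set Node × (ℕ → ℕ) | ∀ (hj : j < σ.length),
            w.2 ((s (σ.take j) w.1).length) <
              (s (σ.take j) w.1).length + m (σ.take j) σ[j] w.1} = Set.univ := by
          ext w
          simp only [Set.mem_ofPred_eq, Set.mem_univ, iff_true]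
          intro hj'
          exact absurd hj' hj
        rw [h2]
        exact MeasurableSet.univ
  · intro T hgT G hG
    obtain ⟨hmono, hz, hsT⟩ := hT T hgT
    -- `D` is big
    have hDs : ∀ σ k, σ ++ [k] ∈ D T G ↔ σ ∈ D T G ∧
        G ((s σ T).length) < (s σ T).length + m σ k T := by
      intro σ k
      constructor
      · intro h
        constructor
        · intro j hj
          have h1 := h j (by simp; omega)
          rw [List.take_append_of_le_length hj.le, List.getElem_append_left hj] at h1
          exact h1
        · have h1 := h σ.length (by simp)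
          simpa using h1
      · rintro ⟨h1, h2⟩ j hj
        rcases Nat.lt_or_ge j σ.length with hj' | hj'
        · rw [List.take_append_of_le_length hj'.le, List.getElem_append_left hj']
          exact h1 j hj'
        · have hj2 : j = σ.length := by
            simp at hj
            omega
          subst hj2
          simpa using h2
    have hBig : Big (D T G) := by
      refine ⟨fun j hj => absurd hj (by simp), fun σ k h => ((hDs σ k).1 h).1, ?_⟩
      intro σ hσ n
      refine ⟨max n (G ((s σ T).length) + 1), le_max_left _ _, (hDs _ _).2 ⟨hσ, ?_⟩⟩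
      have h1 := (hmono σ).id_le (max n (G ((s σ T).length) + 1))
      simp only [id] at h1
      have h2 := le_max_right n (G ((s σ T).length) + 1)
      omega
    obtain ⟨hgood, hbr⟩ := hFtm.1 (fun σ => s σ T) (fun σ k => m σ k T) (D T G) hBig hmono hz
    refine ⟨⟨hgood, ?_⟩, ?_⟩
    · rintro t ⟨σ, _, ht⟩
      exact hgT.mem_of_isPrefix ht (hsT σ)
    · intro φ' hφ' hle x hx u hu hxu k hk
      obtain ⟨g, hg⟩ := hbr x hx
      have hinf : Inf1 x := hx.2 rfl
      -- positions
      let l : ℕ → ℕ := fun n => (s (ini g n) T).length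
      let e : ℕ → ℕ := fun n => l n + m (ini g n) (g n) T
      have hpos : ∀ n, x (e n) = true ∧ ∀ i, l n ≤ i → i < e n → x i = false := by
        intro n
        refine on_z1 ?_
        have h1 := (hg (n + 1)).2
        rw [ini_succ] at h1
        exact h1.of_prefix (hz _ _)
      have hlS : ∀ n, e n + 1 ≤ l (n + 1) := by
        intro n
        have h1 := (hz (ini g n) (g n)).length_le
        rw [← ini_succ] at h1
        simp only [z1, List.length_append, List.length_replicate, List.length_singleton] at h1
        exact h1
      have hml : ∀ n, g n ≤ m (ini g n) (g n) T := fun n => (hmono (ini g n)).id_le (g n)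
      have hln : ∀ n, n ≤ l n ∧ ∀ j < n, g j ≤ l n := by
        intro n
        induction n with
        | zero => exact ⟨Nat.zero_le _, fun j hj => absurd hj (Nat.not_lt_zero _)⟩
        | succ n ih =>
          have h1 := hlS n
          have h2 := hml n
          have h3 : e n = l n + m (ini g n) (g n) T := rfl
          refine ⟨by omega, fun j hj => ?_⟩
          rcases Nat.lt_succ_iff_lt_or_eq.1 hj with h4 | h4
          · have := ih.2 j h4
            omega
          · subst h4
            omega
      have hGe : ∀ n, G (l n) < e n := by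
        intro n
        have h1 := (hg (n + 1)).1
        rw [ini_succ, hDs] at h1
        exact h1.2
      have hφ : ∀ n, l (n + 1) ≤ φ T (e n) := by
        intro n
        have h3 : e n = l n + m (ini g n) (g n) T := rfl
        have h2 := hml n
        have h4 := hln n
        have hmem : (ini g n, g n) ∈ LS (e n) ×ˢ Finset.range (e n + 1) := by
          rw [Finset.mem_product]
          refine ⟨mem_LS ?_ ?_, ?_⟩
          · rw [ini_length]
            omega
          · intro k hk
            simp only [ini, List.mem_map, List.mem_range] at hk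
            obtain ⟨j, hj, rfl⟩ := hk
            have := h4.2 j hj
            omega
          · simp only [Finset.mem_range]
            omega
        have h5 := Finset.single_le_sum
          (f := fun p : List ℕ × ℕ => (s (p.1 ++ [p.2]) T).length)
          (fun _ _ => Nat.zero_le _) hmem
        simp only [← ini_succ] at h5
        exact h5
      -- the block of `k`
      have hex : ∃ n, k < l (n + 1) := ⟨k, by
        have := (hln (k + 1)).1
        omega⟩
      obtain ⟨n, hn1, hn2⟩ : ∃ n, l n ≤ k ∧ k < l (n + 1) := by
        refine ⟨Nat.find hex, ?_, Nat.find_spec hex⟩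
        rcases Nat.eq_zero_or_pos (Nat.find hex) with h0 | h0
        · rw [h0]
          exact hk
        · have h1 := Nat.find_min hex (m := Nat.find hex - 1) (by omega)
          push Not at h1
          rw [Nat.sub_add_cancel h0] at h1
          exact h1
      have hen : e n ≤ u k := by
        rcases Nat.lt_or_ge (e n) k with h1 | h1
        · have h2 := le_nxt hinf k
          have h3 := hxu k
          omega
        · have h2 : nxt x k = e n := nxt_eq (hpos n).1 h1 fun i hi hi2 =>
            (hpos n).2 i (hn1.trans hi) hi2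
          rw [← h2]
          exact hxu k
      have h1 : l (n + 1) ≤ φ' (u k) := (hφ n).trans ((hle (e n)).trans (hφ' hen))
      have h2 : nxt x (l (n + 1)) = e (n + 1) :=
        nxt_eq (hpos (n + 1)).1 (Nat.le_add_right _ _) (hpos (n + 1)).2
      calc G k ≤ G (l (n + 1)) := hG hn2.le
        _ < e (n + 1) := hGe (n + 1)
        _ = nxt x (l (n + 1)) := h2.symm
        _ ≤ u (l (n + 1)) := hxu _
        _ ≤ u (φ' (u k)) := hu h1

end Pool.Agent.MG.H68
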